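import Mathlib
import Pool.Agent.H38.ET8.W247.ET.Stm

/-!
# Project ET, part KER: the closed formula for the symmetrised kernel
-/

set_option autoImplicit false
set_option maxHeartbeats 1000000

open Finset MeasureTheory

namespace Pool.Agent.W975.ET

open Pool.Agent.W247.ET

lemma int_pow {s : ℝ} (hs : 0 < s) (k : ℕ) :
    ∫ y in Set.Ioi (0 : ℝ), y ^ k * Real.exp (-(s * y)) = k.factorial / s ^ (k + 1) := by
  have h := Real.integral_rpow_mul_exp_neg_mul_Ioi (a := (k : ℝ) + 1) (r := s) (by positivity) hs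
  rw [Real.Gamma_nat_eq_factorial] at h
  have e : (1 / s) ^ ((k : ℝ) + 1) = 1 / s ^ (k + 1) := by
    rw [← Nat.cast_succ, Real.rpow_natCast, one_div, inv_pow, one_div]
  rw [e] at h
  have e2 : ∀ y : ℝ, y ^ ((k : ℝ) + 1 - 1) = y ^ k := fun y => by
    rw [add_sub_cancel_right, Real.rpow_natCast]
  simp only [e2] at h
  rw [h]
  ring

lemma integ_pow {s : ℝ} (hs : 0 < s) (k : ℕ) :
    IntegrableOn (fun y : ℝ => y ^ k * Real.exp (-(s * y))) (Set.Ioi 0) := by
  by_contra h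
  have h1 := int_pow hs k
  rw [integral_undef h] at h1
  have h2 : (0 : ℝ) < k.factorial / s ^ (k + 1) := by
    have : (0 : ℝ) < k.factorial := by exact_mod_cast k.factorial_pos
    positivity
  linarith

lemma int_prod {s : ℝ} (hs : 0 < s) (p q : ℕ → ℝ) :
    ∫ y in Set.Ioi (0 : ℝ), (∑ i ∈ range 4, p i * y ^ i) * (∑ j ∈ range 4, q j * y ^ j) *
      Real.exp (-(s * y)) =
    ∑ i ∈ range 4, ∑ j ∈ range 4, p i * q j * ((i + j).factorial / s ^ (i + j + 1)) := by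
  have e : ∀ y : ℝ, (∑ i ∈ range 4, p i * y ^ i) * (∑ j ∈ range 4, q j * y ^ j) *
      Real.exp (-(s * y)) =
      ∑ i ∈ range 4, ∑ j ∈ range 4, p i * q j * (y ^ (i + j) * Real.exp (-(s * y))) := by
    intro y
    rw [sum_mul_sum, sum_mul]
    refine sum_congr rfl fun i _ => ?_
    rw [sum_mul]
    refine sum_congr rfl fun j _ => ?_
    rw [pow_add]
    ring
  simp only [e]
  rw [integral_finsetSum _ (fun i _ => integrable_finsetSum _ fun j _ =>
    (integ_pow hs (i + j)).const_mul (p i * q j))]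
  refine sum_congr rfl fun i _ => ?_
  rw [integral_finsetSum _ (fun j _ => (integ_pow hs (i + j)).const_mul (p i * q j))]
  refine sum_congr rfl fun j _ => ?_
  rw [integral_const_mul, int_pow hs]

/-- four coefficients -/
def f4 (p0 p1 p2 p3 : ℝ) : ℕ → ℝ
  | 0 => p0
  | 1 => p1
  | 2 => p2
  | _ => p3

lemma kk_gen {P : ℝ → ℝ → ℝ} {a x b z s : ℝ} (hs : 0 < s) (hs2 : a + x + b + z = s)
    (p0 p1 p2 p3 q0 q1 q2 q3 : ℝ)
    (hp : ∀ y, P (a * y) (x * y) = p0 + p1 * y + p2 * y ^ 2 + p3 * y ^ 3)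
    (hq : ∀ y, P (b * y) (z * y) = q0 + q1 * y + q2 * y ^ 2 + q3 * y ^ 3) :
    KK P a x b z = (p0 * q0 * s ^ 6 + (p0 * q1 + p1 * q0) * s ^ 5 +
      2 * (p0 * q2 + p1 * q1 + p2 * q0) * s ^ 4 +
      6 * (p0 * q3 + p1 * q2 + p2 * q1 + p3 * q0) * s ^ 3 +
      24 * (p1 * q3 + p2 * q2 + p3 * q1) * s ^ 2 + 120 * (p2 * q3 + p3 * q2) * s +
      720 * (p3 * q3)) / s ^ 7 := by
  have h := int_prod hs (f4 p0 p1 p2 p3) (f4 q0 q1 q2 q3)
  have e : KK P a x b z = ∫ y in Set.Ioi (0 : ℝ), (∑ i ∈ range 4, f4 p0 p1 p2 p3 i * y ^ i) *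
      (∑ j ∈ range 4, f4 q0 q1 q2 q3 j * y ^ j) * Real.exp (-(s * y)) := by
    unfold KK kf
    congr 1
    funext y
    rw [hp, hq, hs2]
    simp only [sum_range_succ, sum_range_zero, f4]
    ring
  rw [e, h]
  simp only [sum_range_succ, sum_range_zero, f4, Nat.factorial]
  have hs0 : s ≠ 0 := hs.ne'
  push_cast
  field_simp
  ring

lemma kk1 {a x b z s : ℝ} (hs : 0 < s) (hs2 : a + x + b + z = s) :
    KK P1 a x b z = ((3 * (a - x)) * (3 * (b - z)) * (2 * s ^ 4) +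
      6 * ((3 * (a - x)) * (-((b - z) * (b + z))) +
        (-((a - x) * (a + x))) * (3 * (b - z))) * s ^ 3 +
      24 * ((3 * (a - x)) * (4 * (b - z) * (b * z)) +
        (-((a - x) * (a + x))) * (-((b - z) * (b + z))) +
        (4 * (a - x) * (a * x)) * (3 * (b - z))) * s ^ 2 +
      120 * ((-((a - x) * (a + x))) * (4 * (b - z) * (b * z)) +
        (4 * (a - x) * (a * x)) * (-((b - z) * (b + z)))) * s +
      720 * ((4 * (a - x) * (a * x)) * (4 * (b - z) * (b * z)))) / s ^ 7 := by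
  rw [kk_gen hs hs2 0 (3 * (a - x)) (-((a - x) * (a + x))) (4 * (a - x) * (a * x))
    0 (3 * (b - z)) (-((b - z) * (b + z))) (4 * (b - z) * (b * z))
    (fun y => by unfold P1; ring) (fun y => by unfold P1; ring)]
  congr 1
  ring

lemma kk2 {a x b z s : ℝ} (hs : 0 < s) (hs2 : a + x + b + z = s) :
    KK P2 a x b z = (13 / 4 * (13 / 4) * s ^ 6 + (13 / 4 * (2 * (b + z)) +
        2 * (a + x) * (13 / 4)) * s ^ 5 +
      2 * (13 / 4 * (-((b + z) ^ 2 + 4 * (b * z))) + 2 * (a + x) * (2 * (b + z)) +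
        (-((a + x) ^ 2 + 4 * (a * x))) * (13 / 4)) * s ^ 4 +
      6 * (13 / 4 * (4 * (b + z) * (b * z)) + 2 * (a + x) * (-((b + z) ^ 2 + 4 * (b * z))) +
        (-((a + x) ^ 2 + 4 * (a * x))) * (2 * (b + z)) +
        (4 * (a + x) * (a * x)) * (13 / 4)) * s ^ 3 +
      24 * (2 * (a + x) * (4 * (b + z) * (b * z)) +
        (-((a + x) ^ 2 + 4 * (a * x))) * (-((b + z) ^ 2 + 4 * (b * z))) +
        (4 * (a + x) * (a * x)) * (2 * (b + z))) * s ^ 2 +
      120 * ((-((a + x) ^ 2 + 4 * (a * x))) * (4 * (b + z) * (b * z)) +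
        (4 * (a + x) * (a * x)) * (-((b + z) ^ 2 + 4 * (b * z)))) * s +
      720 * ((4 * (a + x) * (a * x)) * (4 * (b + z) * (b * z)))) / s ^ 7 :=
  kk_gen hs hs2 (13 / 4) (2 * (a + x)) (-((a + x) ^ 2 + 4 * (a * x))) (4 * (a + x) * (a * x))
    (13 / 4) (2 * (b + z)) (-((b + z) ^ 2 + 4 * (b * z))) (4 * (b + z) * (b * z))
    (fun y => by unfold P2; ring) (fun y => by unfold P2; ring)

/-- KER -/
theorem main : Pool.Agent.W247.ET.KER_stmt := by
  intro a x b z ha hx hb hz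
  obtain ⟨s, hs⟩ : ∃ s : ℝ, s = a + x + b + z := ⟨_, rfl⟩
  have hs0 : 0 < s := by rw [hs]; positivity
  have hsn : s ≠ 0 := hs0.ne'
  have e : a + z + (x + b) = s := by rw [hs]; ring
  rw [kk1 (a := a) (x := x) (b := b) (z := z) hs0 hs.symm,
    kk2 (a := a) (x := x) (b := b) (z := z) hs0 hs.symm,
    kk1 (a := z) (x := x) (b := b) (z := a) hs0 (by rw [hs]; ring),
    kk2 (a := z) (x := x) (b := b) (z := a) hs0 (by rw [hs]; ring),
    kk1 (a := a) (x := b) (b := x) (z := z) hs0 (by rw [hs]; ring),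
    kk2 (a := a) (x := b) (b := x) (z := z) hs0 (by rw [hs]; ring),
    kk1 (a := z) (x := b) (b := x) (z := a) hs0 (by rw [hs]; ring),
    kk2 (a := z) (x := b) (b := x) (z := a) hs0 (by rw [hs]; ring), e]
  have e2 : 4 * (315 / 16 / s + Dp (a + z) (x + b) (a * z) (x * b) / s ^ 7) =
      (4 * (315 / 16 * s ^ 6 + Dp (a + z) (x + b) (a * z) (x * b))) / s ^ 7 := by
    field_simp
  rw [e2]
  simp only [← add_div]
  congr 1
  rw [hs]
  unfold Dp
  ring

end Pool.Agent.W975.ET
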